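import Pool.Agent.Helper19.RD.Stmts8

/-! Project RD, row WL1: weighted large sieve for the Jacobi symbols of products of primes. -/

set_option autoImplicit false

namespace Pool.Agent.Helper19.RD

open Finset Pool.Agent.Helper18.RD

namespace WL1

theorem harm (A B : ℕ) (hA : 1 ≤ A) :
    ∑ r ∈ (Icc A B).filter (fun r => Odd r), (1 : ℝ) / r ≤ 1 + Real.log B := by
  have h1 : ∑ r ∈ (Icc A B).filter (fun r => Odd r), (1 : ℝ) / r ≤
      ∑ r ∈ Icc 1 B, (1 : ℝ) / r := by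
    refine sum_le_sum_of_subset_of_nonneg ?_ fun i _ _ => by positivity
    intro r hr
    rw [mem_filter, mem_Icc] at hr
    rw [mem_Icc]
    exact ⟨hA.trans hr.1.1, hr.1.2⟩
  have h2 := harmonic_le_one_add_log B
  rw [harmonic_eq_sum_Icc] at h2
  push_cast at h2
  refine h1.trans (le_trans (le_of_eq ?_) h2)
  refine sum_congr rfl fun r _ => by rw [one_div]

theorem abs_jac (n : ℤ) (r : ℕ) : |((jacobiSym n r : ℤ) : ℝ)| ≤ 1 := by
  rcases jacobiSym.trichotomy n r with h | h | h <;> rw [h] <;> norm_num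

theorem pair (hP : ST_PERW) (K0 K z x : ℕ) (hz : 1 ≤ z) (hx : 1 ≤ x) (a b : ℤ) (ha : a ≠ 0)
    (hb : b ≠ 0) (ha' : |a| ≤ K0) (hb' : |b| ≤ K0) :
    ∑ r ∈ (Icc (z ^ K) (x ^ K)).filter (fun r => Odd r),
      ((jacobiSym (a * b) r : ℤ) : ℝ) / r ≤
    (if IsSquare (a * b) then (1 + K * Real.log x) else 0) + 8 * (K0 : ℝ) ^ 2 / (z : ℝ) ^ K := by
  have hzK : 1 ≤ z ^ K := Nat.one_le_pow _ _ hz
  have h0 : (0 : ℝ) ≤ 8 * (K0 : ℝ) ^ 2 / (z : ℝ) ^ K := by positivity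
  by_cases hs : IsSquare (a * b)
  · rw [if_pos hs]
    have h1 : ∑ r ∈ (Icc (z ^ K) (x ^ K)).filter (fun r => Odd r),
        ((jacobiSym (a * b) r : ℤ) : ℝ) / r ≤
        ∑ r ∈ (Icc (z ^ K) (x ^ K)).filter (fun r => Odd r), (1 : ℝ) / r := by
      refine sum_le_sum fun r _ => ?_
      exact div_le_div_of_nonneg_right ((abs_le.1 (abs_jac _ _)).2) (Nat.cast_nonneg _)
    have h2 := harm (z ^ K) (x ^ K) hzK
    have h3 : Real.log ((x ^ K : ℕ) : ℝ) = K * Real.log x := by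
      push_cast
      rw [Real.log_pow]
    rw [h3] at h2
    linarith
  · rw [if_neg hs, zero_add]
    refine (le_abs_self _).trans ((hP (a * b) (mul_ne_zero ha hb) hs (z ^ K) (x ^ K) hzK).trans ?_)
    push_cast
    refine div_le_div_of_nonneg_right ?_ (by positivity)
    rw [abs_mul]
    have e1 : |(a : ℝ)| ≤ K0 := by exact_mod_cast ha'
    have e2 : |(b : ℝ)| ≤ K0 := by exact_mod_cast hb'
    have e3 : |(a : ℝ)| * |(b : ℝ)| ≤ (K0 : ℝ) * K0 :=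
      mul_le_mul e1 e2 (abs_nonneg _) (Nat.cast_nonneg _)
    nlinarith

end WL1

open WL1 in
theorem st_WL1 (hP : ST_PERW) (hF : ST_FI6) : ST_WL1 := by
  intro ι _ T Y K0 K z x U hK hz hx hT hU
  have hzK : 1 ≤ z ^ K := Nat.one_le_pow _ _ hz
  obtain ⟨g, hg⟩ : ∃ g : ℕ → ℝ, ∀ r, g r = if z ^ K ≤ r then
      (1 / (r : ℝ)) * (∑ a ∈ T, (jacobiSym (Y a) r : ℝ)) ^ 2 else 0 := ⟨_, fun r => rfl⟩
  have hg0 : ∀ r, 0 ≤ g r := by
    intro r
    rw [hg]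
    split_ifs
    · positivity
    · exact le_refl _
  have h1 := hF K x U g hK hg0 (fun p hp => ⟨(hU p hp).1, (hU p hp).2.1, (hU p hp).2.2.2⟩)
  have h2 : ∑ t ∈ Fintype.piFinset (fun _ : Fin K => U), (∏ i, 1 / (t i : ℝ)) *
      (∑ a ∈ T, (jacobiSym (Y a) (∏ i, t i) : ℝ)) ^ 2 =
      ∑ t ∈ Fintype.piFinset (fun _ : Fin K => U), g (∏ i, t i) := by
    refine sum_congr rfl fun t ht => ?_
    have h3 : z ^ K ≤ ∏ i, t i := by
      have h4 : ∏ _i : Fin K, z ≤ ∏ i, t i :=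
        prod_le_prod' fun i _ => (hU (t i) (Fintype.mem_piFinset.1 ht i)).2.2.1
      simpa using h4
    rw [hg, if_pos h3]
    push_cast
    rw [one_div, ← prod_inv_distrib]
    simp only [one_div]
  rw [h2]
  refine h1.trans (mul_le_mul_of_nonneg_left ?_ (by positivity))
  -- the sum over the odd `r`
  have h5 : ∑ r ∈ (Icc 1 (x ^ K)).filter (fun r => Odd r), g r =
      ∑ r ∈ (Icc (z ^ K) (x ^ K)).filter (fun r => Odd r),
        (1 / (r : ℝ)) * (∑ a ∈ T, (jacobiSym (Y a) r : ℝ)) ^ 2 := by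
    simp only [hg]
    rw [← sum_filter]
    refine sum_congr ?_ fun r _ => rfl
    ext r
    simp only [mem_filter, mem_Icc]
    constructor
    · rintro ⟨⟨⟨_, h⟩, h'⟩, h''⟩
      exact ⟨⟨h'', h⟩, h'⟩
    · rintro ⟨⟨h'', h⟩, h'⟩
      exact ⟨⟨⟨hzK.trans h'', h⟩, h'⟩, h''⟩
  have h6 : ∑ r ∈ (Icc (z ^ K) (x ^ K)).filter (fun r => Odd r),
      (1 / (r : ℝ)) * (∑ a ∈ T, (jacobiSym (Y a) r : ℝ)) ^ 2 =
      ∑ p ∈ T ×ˢ T, ∑ r ∈ (Icc (z ^ K) (x ^ K)).filter (fun r => Odd r),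
        ((jacobiSym (Y p.1 * Y p.2) r : ℤ) : ℝ) / r := by
    rw [sum_comm]
    refine sum_congr rfl fun r _ => ?_
    rw [pow_two, sum_mul_sum, sum_product, mul_sum]
    refine sum_congr rfl fun a _ => ?_
    rw [mul_sum]
    refine sum_congr rfl fun b _ => ?_
    rw [jacobiSym.mul_left]
    push_cast
    ring
  rw [h5, h6]
  have h7 : ∑ p ∈ T ×ˢ T, ∑ r ∈ (Icc (z ^ K) (x ^ K)).filter (fun r => Odd r),
      ((jacobiSym (Y p.1 * Y p.2) r : ℤ) : ℝ) / r ≤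
      ∑ p ∈ T ×ˢ T, ((if IsSquare (Y p.1 * Y p.2) then (1 + K * Real.log x) else 0) +
        8 * (K0 : ℝ) ^ 2 / (z : ℝ) ^ K) := by
    refine sum_le_sum fun p hp => ?_
    rw [mem_product] at hp
    exact pair hP K0 K z x hz hx (Y p.1) (Y p.2) (hT _ hp.1).1 (hT _ hp.2).1 (hT _ hp.1).2
      (hT _ hp.2).2
  refine h7.trans (le_of_eq ?_)
  rw [sum_add_distrib, ← sum_filter, sum_const, sum_const, nsmul_eq_mul, nsmul_eq_mul,
    card_product]
  push_cast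
  ring

end Pool.Agent.Helper19.RD
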